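import Pool.Agent.Helper59.DG3.PairDefs

/-!
# Threads: no vertex lies inside an edge, except the corners on their own links
-/

set_option autoImplicit false
set_option linter.unusedVariables false

namespace Pool.Agent.Helper60.DG3

open Pool.Agent.Helper59.DG3

section aux

/-- a point of the open cell lies in one cell only -/
theorem cellEq {i j : ℤ} {x : ℝ} (h1 : 2 * (i : ℝ) + 4 < x) (h2 : x < 2 * (i : ℝ) + 6)
    (h3 : 2 * (j : ℝ) + 4 < x) (h4 : x < 2 * (j : ℝ) + 6) : i = j := by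
  have a : (i : ℝ) < (j : ℝ) + 1 := by linarith
  have b : (j : ℝ) < (i : ℝ) + 1 := by linarith
  have a' : i < j + 1 := by exact_mod_cast a
  have b' : j < i + 1 := by exact_mod_cast b
  omega

/-- there is no even integer in `(0, 2)` -/
theorem noEven {i j : ℤ} {x : ℝ} (h0 : 2 * ((i : ℝ) - j) = x) (h1 : 0 < x) (h2 : x < 2) : False := by
  have a : (j : ℝ) < (i : ℝ) := by linarith
  have b : (i : ℝ) < (j : ℝ) + 1 := by linarith
  have a' : j < i := by exact_mod_cast a
  have b' : i < j + 1 := by exact_mod_cast b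
  omega

theorem xi_pos (k : ℕ) : 0 < xi k := by linarith [xi_ge k]

theorem sq_lt (k : ℕ) : (xi k) ^ 2 / 2 < xi k := by
  nlinarith [xi_ge k, xi_lt k]

theorem sq_pos (k : ℕ) : 0 < (xi k) ^ 2 / 2 := by
  nlinarith [xi_ge k, xi_lt k]

theorem sq_gt (k : ℕ) : xi k < 2 - (2 - xi k) ^ 2 / 2 := by
  nlinarith [xi_ge k, xi_lt k]

theorem sq_lt' (k : ℕ) : 2 - (2 - xi k) ^ 2 / 2 < 2 := by
  nlinarith [xi_ge k, xi_lt k]

variable {R : ℤ} {L : ℤ × ℤ → Prop} {p q : ℤ × ℤ}

/-- two obstacles of one column are at least `R` apart -/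
theorem colLt (h : Lat R L) (hp : L p) (hq : L q) (e : p.1 = q.1) (h1 : q.2 < p.2)
    (h2 : p.2 < q.2 + R) : False := by
  have := Int.le_of_dvd (by omega) (h.col p q hp hq e)
  omega

/-- two obstacles of one row are at least `R` apart -/
theorem rowLt (h : Lat R L) (hp : L p) (hq : L q) (e : p.2 = q.2) (h1 : q.1 < p.1)
    (h2 : p.1 < q.1 + R) : False := by
  have := Int.le_of_dvd (by omega) (h.row p q hp hq e)
  omega

/-- two obstacles of one column that see one height are equal -/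
theorem colEq (h : Lat R L) (hp : L p) (hq : L q) (e : p.1 = q.1) {j : ℤ} (h1 : p.2 < j)
    (h2 : j < p.2 + R) (h3 : q.2 < j) (h4 : j < q.2 + R) : p = q := by
  have h5 : p.2 = q.2 := by
    rcases lt_trichotomy p.2 q.2 with g | g | g
    · exact (colLt h hq hp e.symm g (by omega)).elim
    · exact g
    · exact (colLt h hp hq e g (by omega)).elim
  exact Prod.ext e h5

theorem rowEq (h : Lat R L) (hp : L p) (hq : L q) (e : p.2 = q.2) {j : ℤ} (h1 : p.1 < j)
    (h2 : j < p.1 + R) (h3 : q.1 < j) (h4 : j < q.1 + R) : p = q := by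
  have h5 : p.1 = q.1 := by
    rcases lt_trichotomy p.1 q.1 with g | g | g
    · exact (rowLt h hq hp e.symm g (by omega)).elim
    · exact g
    · exact (rowLt h hp hq e g (by omega)).elim
  exact Prod.ext h5 e

end aux

end Pool.Agent.Helper60.DG3

namespace Pool.Agent.Helper29.DG3

open Pool.Agent.Helper59.DG3 Pool.Agent.Helper60.DG3

variable {R : ℤ} {L : ℤ × ℤ → Prop} {x y : ℝ} {k k' : ℕ} {p p' q q' : ℤ × ℤ}

theorem v0_tv (h : Lat R L) (h1 : V0 L k p x y) (h2 : Tv R L k' p' x y) :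
    False := by
  obtain ⟨a1, a2, a3⟩ := h1
  obtain ⟨b1, b2, b3, b4⟩ := h2
  have e := cellEq (x := x) (i := p.1) (j := p'.1) (by linarith [xi_ge k]) (by linarith [xi_lt k])
    (by linarith [xi_ge k']) (by linarith [xi_lt k'])
  have e' : (p.1 : ℝ) = p'.1 := by rw [e]
  have ek : xi k = xi k' := by linarith
  have c1 : (p'.2 : ℝ) < p.2 := by
    rw [← ek] at b3
    linarith [sq_lt k, sq_gt k]
  have c2 : (p.2 : ℝ) < (p'.2 : ℝ) + R := by
    rw [← ek] at b4
    linarith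
  exact colLt h a1 b1 e (by exact_mod_cast c1) (by exact_mod_cast c2)

theorem v0_th (h : Lat R L) (h1 : V0 L k p x y) (h2 : Th R L k' p' x y) :
    False := by
  obtain ⟨a1, a2, a3⟩ := h1
  obtain ⟨b1, b2, b3, b4⟩ := h2
  have e := cellEq (x := y) (i := p.2) (j := p'.2) (by linarith [sq_pos k])
    (by linarith [sq_lt k, xi_lt k]) (by linarith [xi_ge k']) (by linarith [xi_lt k'])
  have c1 : (p'.1 : ℝ) < p.1 := by linarith [xi_lt k]
  have c2 : (p.1 : ℝ) < (p'.1 : ℝ) + R := by linarith [xi_ge k]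
  exact rowLt h a1 b1 e (by exact_mod_cast c1) (by exact_mod_cast c2)

theorem v0_ts (h : Lat R L) (h1 : V0 L k p x y) (h2 : Ts L k' p' x y) :
    False := by
  obtain ⟨a1, a2, a3⟩ := h1
  obtain ⟨b1, b2, b3, b4⟩ := h2
  have e := cellEq (x := x) (i := p.1) (j := p'.1) (by linarith [xi_ge k]) (by linarith [xi_lt k])
    (by linarith [xi_ge k']) (by linarith [xi_lt k'])
  have e' : (p.1 : ℝ) = p'.1 := by rw [e]
  have ek : xi k' < xi k := by linarith
  have e2 : 2 * (p'.1 : ℝ) + 6 - x = 2 - xi k := by linarith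
  rw [e2] at b4
  have e3 : 2 * ((p.2 : ℝ) - p'.2) = (2 - xi k) / 2 * (xi k - xi k') := by
    rw [a3] at b4
    linarith
  refine noEven e3 ?_ ?_
  · have := xi_lt k
    have h1 : 0 < 2 - xi k := by linarith
    have h2 : 0 < xi k - xi k' := by linarith
    positivity
  · nlinarith [xi_ge k, xi_lt k, xi_ge k', xi_lt k']

theorem v0_te (h : Lat R L) (h1 : V0 L k p x y) (h2 : Te L k' p' x y) :
    False := by
  obtain ⟨a1, a2, a3⟩ := h1
  obtain ⟨b1, b2, b3, b4⟩ := h2
  have e := cellEq (x := x) (i := p.1) (j := p'.1) (by linarith [xi_ge k]) (by linarith [xi_lt k])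
    (by linarith [xi_ge k']) (by linarith [xi_lt k'])
  have e' : (p.1 : ℝ) = p'.1 := by rw [e]
  have ek : xi k < xi k' := by linarith
  have e2 : x - (2 * (p'.1 : ℝ) + 4) = xi k := by linarith
  rw [e2] at b4
  have e3 : 2 * ((p.2 : ℝ) - p'.2) = xi k / 2 * (4 - xi k' - xi k) := by
    rw [a3] at b4
    linarith
  refine noEven e3 ?_ ?_
  · have h1 : 0 < xi k := xi_pos k
    have h2 : 0 < 4 - xi k' - xi k := by linarith [xi_lt k, xi_lt k']
    positivity
  · nlinarith [xi_ge k, xi_lt k, xi_ge k', xi_lt k']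

theorem v0_dg (h : Lat R L) (h1 : V0 L k p x y) (h2 : Dg L p' x y) :
    False := by
  obtain ⟨a1, a2, a3⟩ := h1
  obtain ⟨b1, b2, b3, b4⟩ := h2
  have e := cellEq (x := x) (i := p.1) (j := p'.1) (by linarith [xi_ge k]) (by linarith [xi_lt k])
    (by linarith) (by linarith)
  have e' : (p.1 : ℝ) = p'.1 := by rw [e]
  have e3 : 2 * ((p.2 : ℝ) - p'.2) = xi k - (xi k) ^ 2 / 2 := by linarith
  exact noEven e3 (by linarith [sq_lt k]) (by linarith [sq_pos k, xi_lt k])

theorem ve_tv (h : Lat R L) (h1 : Ve L k p x y) (h2 : Tv R L k' p' x y) :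
    False := by
  obtain ⟨a1, a2, a3⟩ := h1
  obtain ⟨b1, b2, b3, b4⟩ := h2
  have e := cellEq (x := x) (i := p.1) (j := p'.1) (by linarith [xi_ge k]) (by linarith [xi_lt k])
    (by linarith [xi_ge k']) (by linarith [xi_lt k'])
  have e' : (p.1 : ℝ) = p'.1 := by rw [e]
  have ek : xi k = xi k' := by linarith
  have c1 : (p'.2 : ℝ) < p.2 := by
    rw [← ek] at b3
    linarith
  have c2 : (p.2 : ℝ) < (p'.2 : ℝ) + R := by
    rw [← ek] at b4
    linarith [sq_lt k, sq_gt k]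
  exact colLt h a1 b1 e (by exact_mod_cast c1) (by exact_mod_cast c2)

theorem ve_th (h : Lat R L) (h1 : Ve L k p x y) (h2 : Th R L k' p' x y) :
    False := by
  obtain ⟨a1, a2, a3⟩ := h1
  obtain ⟨b1, b2, b3, b4⟩ := h2
  have e := cellEq (x := y) (i := p.2) (j := p'.2) (by linarith [sq_gt k, xi_ge k])
    (by linarith [sq_lt' k]) (by linarith [xi_ge k']) (by linarith [xi_lt k'])
  have c1 : (p'.1 : ℝ) < p.1 := by linarith [xi_lt k]
  have c2 : (p.1 : ℝ) < (p'.1 : ℝ) + R := by linarith [xi_ge k]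
  exact rowLt h a1 b1 e (by exact_mod_cast c1) (by exact_mod_cast c2)

theorem ve_ts (h : Lat R L) (h1 : Ve L k p x y) (h2 : Ts L k' p' x y) :
    False := by
  obtain ⟨a1, a2, a3⟩ := h1
  obtain ⟨b1, b2, b3, b4⟩ := h2
  have e := cellEq (x := x) (i := p.1) (j := p'.1) (by linarith [xi_ge k]) (by linarith [xi_lt k])
    (by linarith [xi_ge k']) (by linarith [xi_lt k'])
  have e' : (p.1 : ℝ) = p'.1 := by rw [e]
  have ek : xi k' < xi k := by linarith
  have e2 : 2 * (p'.1 : ℝ) + 6 - x = 2 - xi k := by linarith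
  rw [e2] at b4
  have e3 : 2 * ((p'.2 : ℝ) - p.2) = (2 - xi k) / 2 * (xi k + xi k') := by
    rw [a3] at b4
    linarith
  refine noEven e3 ?_ ?_
  · have h1 : 0 < 2 - xi k := by linarith [xi_lt k]
    have h2 : 0 < xi k + xi k' := by linarith [xi_pos k, xi_pos k']
    positivity
  · nlinarith [xi_ge k, xi_lt k, xi_ge k', xi_lt k']

theorem ve_te (h : Lat R L) (h1 : Ve L k p x y) (h2 : Te L k' p' x y) :
    False := by
  obtain ⟨a1, a2, a3⟩ := h1
  obtain ⟨b1, b2, b3, b4⟩ := h2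
  have e := cellEq (x := x) (i := p.1) (j := p'.1) (by linarith [xi_ge k]) (by linarith [xi_lt k])
    (by linarith [xi_ge k']) (by linarith [xi_lt k'])
  have e' : (p.1 : ℝ) = p'.1 := by rw [e]
  have ek : xi k < xi k' := by linarith
  have e2 : x - (2 * (p'.1 : ℝ) + 4) = xi k := by linarith
  rw [e2] at b4
  have e3 : 2 * ((p'.2 : ℝ) - p.2) = xi k / 2 * (xi k' - xi k) := by
    rw [a3] at b4
    linarith
  refine noEven e3 ?_ ?_
  · have h1 : 0 < xi k := xi_pos k
    have h2 : 0 < xi k' - xi k := by linarith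
    positivity
  · nlinarith [xi_ge k, xi_lt k, xi_ge k', xi_lt k']

theorem ve_dg (h : Lat R L) (h1 : Ve L k p x y) (h2 : Dg L p' x y) :
    False := by
  obtain ⟨a1, a2, a3⟩ := h1
  obtain ⟨b1, b2, b3, b4⟩ := h2
  have e := cellEq (x := x) (i := p.1) (j := p'.1) (by linarith [xi_ge k]) (by linarith [xi_lt k])
    (by linarith) (by linarith)
  have e' : (p.1 : ℝ) = p'.1 := by rw [e]
  have e3 : 2 * ((p'.2 : ℝ) - p.2) = 2 - (2 - xi k) ^ 2 / 2 - xi k := by linarith
  exact noEven e3 (by linarith [sq_gt k]) (by linarith [sq_lt' k, xi_ge k])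

theorem vm_tv (h : Lat R L) (h1 : Vm R L k p q x y) (h2 : Tv R L k' p' x y) :
    k = k' ∧ p = p' := by
  obtain ⟨a1, a2, a3, a4, a5, a6, a7, a8⟩ := h1
  obtain ⟨b1, b2, b3, b4⟩ := h2
  have e := cellEq (x := x) (i := p.1) (j := p'.1) (by linarith [xi_ge k]) (by linarith [xi_lt k])
    (by linarith [xi_ge k']) (by linarith [xi_lt k'])
  have e' : (p.1 : ℝ) = p'.1 := by rw [e]
  have ek : xi k = xi k' := by linarith
  have c1 : (p'.2 : ℝ) < q.2 := by
    rw [← ek] at b3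
    linarith [sq_gt k]
  have c2 : (q.2 : ℝ) < (p'.2 : ℝ) + R := by
    rw [← ek] at b4
    linarith [sq_lt k]
  exact ⟨xi_inj ek, colEq h a1 b1 e a3 a4 (by exact_mod_cast c1) (by exact_mod_cast c2)⟩

theorem vm_th (h : Lat R L) (h1 : Vm R L k p q x y) (h2 : Th R L k' p' x y) :
    k = k' ∧ q = p' := by
  obtain ⟨a1, a2, a3, a4, a5, a6, a7, a8⟩ := h1
  obtain ⟨b1, b2, b3, b4⟩ := h2
  have e := cellEq (x := y) (i := q.2) (j := p'.2) (by linarith [xi_ge k]) (by linarith [xi_lt k])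
    (by linarith [xi_ge k']) (by linarith [xi_lt k'])
  have e' : (q.2 : ℝ) = p'.2 := by rw [e]
  have ek : xi k = xi k' := by linarith
  have c1 : (p'.1 : ℝ) < p.1 := by linarith [xi_lt k]
  have c2 : (p.1 : ℝ) < (p'.1 : ℝ) + R := by linarith [xi_ge k]
  exact ⟨xi_inj ek, rowEq h a2 b1 e a5 a6 (by exact_mod_cast c1) (by exact_mod_cast c2)⟩

theorem vm_ts (h : Lat R L) (h1 : Vm R L k p q x y) (h2 : Ts L k' p' x y) :
    False := by
  obtain ⟨a1, a2, a3, a4, a5, a6, a7, a8⟩ := h1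
  obtain ⟨b1, b2, b3, b4⟩ := h2
  have e := cellEq (x := x) (i := p.1) (j := p'.1) (by linarith [xi_ge k]) (by linarith [xi_lt k])
    (by linarith [xi_ge k']) (by linarith [xi_lt k'])
  have e' : (p.1 : ℝ) = p'.1 := by rw [e]
  have ek : xi k' < xi k := by linarith
  have e2 : 2 * (p'.1 : ℝ) + 6 - x = 2 - xi k := by linarith
  rw [e2] at b4
  have s1 : 0 < (2 - xi k) * (2 + xi k') / 2 := by
    have h1 : 0 < 2 - xi k := by linarith [xi_lt k]
    have h2 : 0 < 2 + xi k' := by linarith [xi_pos k']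
    positivity
  have s2 : (2 - xi k) * (2 + xi k') / 2 < 2 := by
    nlinarith [xi_ge k, xi_lt k, xi_ge k', xi_lt k']
  have e3 := cellEq (x := y) (i := q.2) (j := p'.2) (by linarith [xi_ge k]) (by linarith [xi_lt k])
    (by linarith) (by linarith)
  exact colLt h b1 a1 e.symm (by omega) (by omega)

theorem vm_te (h : Lat R L) (h1 : Vm R L k p q x y) (h2 : Te L k' p' x y) :
    False := by
  obtain ⟨a1, a2, a3, a4, a5, a6, a7, a8⟩ := h1
  obtain ⟨b1, b2, b3, b4⟩ := h2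
  have e := cellEq (x := x) (i := p.1) (j := p'.1) (by linarith [xi_ge k]) (by linarith [xi_lt k])
    (by linarith [xi_ge k']) (by linarith [xi_lt k'])
  have e' : (p.1 : ℝ) = p'.1 := by rw [e]
  have ek : xi k < xi k' := by linarith
  have e2 : x - (2 * (p'.1 : ℝ) + 4) = xi k := by linarith
  rw [e2] at b4
  have s1 : 0 < xi k * (4 - xi k') / 2 := by
    have h1 : 0 < xi k := xi_pos k
    have h2 : 0 < 4 - xi k' := by linarith [xi_lt k']
    positivity
  have s2 : xi k * (4 - xi k') / 2 < 2 := by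
    nlinarith [xi_ge k, xi_lt k, xi_ge k', xi_lt k']
  have e3 := cellEq (x := y) (i := q.2) (j := p'.2) (by linarith [xi_ge k]) (by linarith [xi_lt k])
    (by linarith) (by linarith)
  exact colLt h b1 a1 e.symm (by omega) (by omega)

theorem vm_dg (h : Lat R L) (h1 : Vm R L k p q x y) (h2 : Dg L p' x y) :
    False := by
  obtain ⟨a1, a2, a3, a4, a5, a6, a7, a8⟩ := h1
  obtain ⟨b1, b2, b3, b4⟩ := h2
  have e := cellEq (x := x) (i := p.1) (j := p'.1) (by linarith [xi_ge k]) (by linarith [xi_lt k])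
    (by linarith) (by linarith)
  have e' : (p.1 : ℝ) = p'.1 := by rw [e]
  have e3 : (q.2 : ℝ) = p'.2 := by linarith
  have e4 : q.2 = p'.2 := by exact_mod_cast e3
  exact colLt h b1 a1 e.symm (by omega) (by omega)

theorem vf_tv (h : Lat R L) (h1 : Vf p x y) (h2 : Tv R L k' p' x y) :
    False := by
  obtain ⟨a1, a2⟩ := h1
  obtain ⟨b1, b2, b3, b4⟩ := h2
  have e3 : 2 * ((p.1 : ℝ) - p'.1) = xi k' := by linarith
  exact noEven e3 (xi_pos k') (xi_lt k')

theorem vf_th (h : Lat R L) (h1 : Vf p x y) (h2 : Th R L k' p' x y) :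
    False := by
  obtain ⟨a1, a2⟩ := h1
  obtain ⟨b1, b2, b3, b4⟩ := h2
  have e3 : 2 * ((p.2 : ℝ) - p'.2) = xi k' := by linarith
  exact noEven e3 (xi_pos k') (xi_lt k')

theorem vf_ts (h : Lat R L) (h1 : Vf p x y) (h2 : Ts L k' p' x y) :
    False := by
  obtain ⟨a1, a2⟩ := h1
  obtain ⟨b1, b2, b3, b4⟩ := h2
  have e3 : 2 * ((p.1 : ℝ) - p'.1) = x - (2 * (p'.1 : ℝ) + 4) := by linarith
  exact noEven e3 (by linarith [xi_pos k']) (by linarith)

theorem vf_te (h : Lat R L) (h1 : Vf p x y) (h2 : Te L k' p' x y) :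
    False := by
  obtain ⟨a1, a2⟩ := h1
  obtain ⟨b1, b2, b3, b4⟩ := h2
  have e3 : 2 * ((p.1 : ℝ) - p'.1) = x - (2 * (p'.1 : ℝ) + 4) := by linarith
  exact noEven e3 (by linarith) (by linarith [xi_lt k'])

theorem vf_dg (h : Lat R L) (h1 : Vf p x y) (h2 : Dg L p' x y) :
    False := by
  obtain ⟨a1, a2⟩ := h1
  obtain ⟨b1, b2, b3, b4⟩ := h2
  have e3 : 2 * ((p.1 : ℝ) - p'.1) = x - (2 * (p'.1 : ℝ) + 4) := by linarith
  exact noEven e3 (by linarith) (by linarith)

end Pool.Agent.Helper29.DG3
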