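import Pool.Agent.Helper58.DG3.Part3
import Pool.Agent.Helper29.DG3.Num
import Pool.Agent.Helper59.DG.Draw

/-!
# The drawing of the core with the grids with threads
-/

set_option autoImplicit false

namespace Pool.Agent.Helper58.DG3

open Pool.Agent.Helper18.RAC Complex
open Pool.Agent.Helper82.DG (XCross core_xcross)

variable {V : Type*}

/-- the statement of `insert_grid` -/
def InsGrid (V : Type*) : Prop :=
  ∀ (G : SimpleGraph V) (f : V → ℂ), IsRAC G f → ∀ (κ : GX → V) (π : Par), 8 ≤ π.M →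
    XCross G f (κ (.X false)) (κ (.Y false)) (κ (.X true)) (κ (.Y true)) →
    (∀ x y : GN, x.ok π → y.ok π → κ (.v x) = κ (.v y) → x = y) →
    (∀ x : GN, x.ok π → ∀ v, ¬ G.Adj (κ (.v x)) v) →
    ∃ f' : V → ℂ, IsRAC (G ⊔ SimpleGraph.fromEdgeSet (gridE κ π)) f' ∧
      ∀ n s e w, XCross G f n s e w →
        s(n, s) ≠ s(κ (.X false), κ (.Y false)) → s(n, s) ≠ s(κ (.X true), κ (.Y true)) →
        s(e, w) ≠ s(κ (.X false), κ (.Y false)) → s(e, w) ≠ s(κ (.X true), κ (.Y true)) →
        XCross (G ⊔ SimpleGraph.fromEdgeSet (gridE κ π)) f' n s e w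

namespace DW

theorem D'_ok {π : Par} {σ : Bool} {c : ℕ} (hc : c < π.M) : (GN.D' σ c 0).ok π := by
  cases σ
  · exact ⟨hc, by omega, Or.inr rfl⟩
  · exact ⟨by omega, hc, Or.inl rfl⟩

/-- the ends of an edge of a grid are corners or used names -/
theorem F'_ok {π : Par} {σ : Bool} {x y : ℕ} (hx : 1 ≤ x) (hy : 1 ≤ y) (hM : x + y + 3 ≤ π.M)
    (h : InS π.D (pt σ x y)) : (GN.F' σ x y).ok π := by
  cases σ
  · exact ⟨hy, hx, by omega, h⟩
  · exact ⟨hx, hy, hM, h⟩

theorem G_ge5 (π : Par) : 8 ≤ π.G := by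
  have h1 : 1 ≤ π.R := Nat.fib_pos.2 (by omega)
  have h2 : 8 * 1 ≤ (4 * π.l + 8) * π.R := Nat.mul_le_mul (by omega) h1
  exact h2

theorem te_ok {π : Par} {k x y : ℕ} (h : π.St k x y) :
    (GN.F (π.pp k x y π.l).1.toNat (π.pp k x y π.l).2.toNat).ok π := by
  obtain ⟨r1, r2, r3⟩ := Pool.Agent.Helper59.DG3.room_pp h (le_refl π.l)
  have r4 := Pool.Agent.Helper59.DG3.pp_inL h π.l
  have e1 : (((π.pp k x y π.l).1.toNat : ℕ) : ℤ) = (π.pp k x y π.l).1 :=
    Int.toNat_of_nonneg (by omega)
  have e2 : (((π.pp k x y π.l).2.toNat : ℕ) : ℤ) = (π.pp k x y π.l).2 :=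
    Int.toNat_of_nonneg (by omega)
  have hR : 0 ≤ (π.R : ℤ) := by positivity
  refine ⟨by omega, by omega, by omega, Or.inl ?_⟩
  rw [e1, e2]
  exact r4

theorem ends_ok {π : Par} (hM : 8 ≤ π.M) {c : GE} (hc : c.valid π) :
    (∀ x, (c.ends π).1 = .v x → x.ok π) ∧ ∀ x, (c.ends π).2 = .v x → x.ok π := by
  cases c with
  | yp σ j =>
    refine ⟨fun x h => (by cases h), fun x h => ?_⟩
    injection h with h; subst h; exact hc
  | xu σ c =>
    refine ⟨fun x h => (by cases h), fun x h => ?_⟩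
    injection h with h; subst h; exact hc.1
  | xp σ =>
    refine ⟨fun x h => (by cases h), fun x h => ?_⟩
    injection h with h; subst h; show 2 * π.M - 1 < 2 * π.M; omega
  | up σ c =>
    have hc' : c < π.M := hc
    refine ⟨fun x h => ?_, fun x h => ?_⟩
    · injection h with h; subst h; exact hc
    · injection h with h; subst h; show 2 * c < 2 * π.M; omega
  | pd σ c =>
    have hc' : c < π.M := hc
    refine ⟨fun x h => ?_, fun x h => ?_⟩
    · injection h with h; subst h; show 2 * c + 1 < 2 * π.M; omega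
    · injection h with h; subst h; exact D'_ok hc'
  | dd σ c =>
    have hc' : c + 1 < π.M := hc
    refine ⟨fun x h => ?_, fun x h => ?_⟩
    · injection h with h; subst h; exact D'_ok (by omega)
    · injection h with h; subst h; exact D'_ok hc'
  | pp σ j =>
    have hc' : j + 1 < 2 * π.M := hc
    refine ⟨fun x h => ?_, fun x h => ?_⟩
    · injection h with h; subst h; show j < 2 * π.M; omega
    · injection h with h; subst h; exact hc'
  | pc σ j ε =>
    have hc' : j + 1 < 2 * π.M := hc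
    refine ⟨fun x h => ?_, fun x h => ?_⟩
    · injection h with h; subst h; show j < 2 * π.M; omega
    · injection h with h; subst h; exact hc'
  | pc' σ j ε =>
    have hc' : j + 1 < 2 * π.M := hc
    refine ⟨fun x h => ?_, fun x h => ?_⟩
    · injection h with h; subst h; exact hc'
    · injection h with h; subst h; exact hc'
  | cc σ j =>
    have hc' : j + 1 < 2 * π.M := hc
    refine ⟨fun x h => ?_, fun x h => ?_⟩
    · injection h with h; subst h; exact hc'
    · injection h with h; subst h; exact hc'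
  | uu =>
    refine ⟨fun x h => ?_, fun x h => ?_⟩
    · injection h with h; subst h; show π.M - 1 < π.M; omega
    · injection h with h; subst h; show π.M - 1 < π.M; omega
  | uq σ ε =>
    refine ⟨fun x h => ?_, fun x h => ?_⟩
    · injection h with h; subst h; show π.M - 1 < π.M; omega
    · injection h with h; subst h; trivial
  | qq =>
    refine ⟨fun x h => ?_, fun x h => ?_⟩
    · injection h with h; subst h; trivial
    · injection h with h; subst h; trivial
  | dr σ ε =>
    refine ⟨fun x h => ?_, fun x h => ?_⟩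
    · injection h with h; subst h; exact D'_ok (by omega)
    · injection h with h; subst h
      cases ε
      · show 0 < π.M; omega
      · show 1 < π.M; omega
  | uw σ c =>
    obtain ⟨h1, h2⟩ : 3 ≤ c ∧ c + 2 ≤ π.M := hc
    refine ⟨fun x h => ?_, fun x h => ?_⟩
    · injection h with h; subst h
      split_ifs
      · cases σ
        · exact ⟨by omega, by omega, Or.inl rfl⟩
        · exact ⟨by omega, by omega, Or.inr rfl⟩
      · show c - 1 < π.M; omega
    · injection h with h; subst h; show c < π.M; omega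
  | nl σ x x' y =>
    obtain ⟨h1, h2, h3, h4, h5, -⟩ := hc
    refine ⟨fun z h => ?_, fun z h => ?_⟩
    · injection h with h; subst h
      unfold GN.lo
      split_ifs with h0
      · exact D'_ok (by omega)
      · exact F'_ok (by omega) h1 (by omega) (h5.resolve_left h0)
    · injection h with h; subst h
      exact F'_ok (by omega) h1 h3 h4
  | dg x y =>
    obtain ⟨h1, h2, h3, h4⟩ := hc
    refine ⟨fun z h => ?_, fun z h => ?_⟩
    · injection h with h; subst h
      exact ⟨h1, h2, by omega, Or.inl h4⟩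
    · injection h with h; subst h
      refine ⟨by omega, by omega, by omega, Or.inr (Or.inl ?_)⟩
      push_cast
      simpa using h4
  | ts k x y =>
    have h : π.St k x y := hc
    have hG := G_ge5 π
    have h2 := h.2.2.2.2.1
    refine ⟨fun z h' => ?_, fun z h' => ?_⟩
    · injection h' with h'; subst h'
      refine ⟨by omega, by omega, by omega, Or.inr (Or.inl ?_)⟩
      push_cast
      simpa using h.2.1
    · injection h' with h'; subst h'
      exact ⟨h, by omega⟩
  | tt k x y t =>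
    obtain ⟨h, ht⟩ := hc
    refine ⟨fun z h' => ?_, fun z h' => ?_⟩
    · injection h' with h'; subst h'
      exact ⟨h, by omega⟩
    · injection h' with h'; subst h'
      exact ⟨h, by omega⟩
  | te k x y =>
    have h : π.St k x y := hc
    refine ⟨fun z h' => ?_, fun z h' => ?_⟩
    · injection h' with h'; subst h'
      exact ⟨h, le_rfl⟩
    · injection h' with h'; subst h'
      exact te_ok h

section

variable {a b : V} {p : ℕ → V} {κ : ℕ → GX → V} {m K : ℕ} {π : Par}

theorem corner_core (hl : LayD a b p κ m K π) {i : ℕ} (hi : i < K) (c : GX)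
    (hc : ∀ x, c ≠ .v x) : κ i c = a ∨ κ i c = b ∨ ∃ j < m, κ i c = p j := by
  have hm := hl.hm
  rcases c with (_ | _) | (_ | _) | x
  · rw [hl.kN i hi]
    split_ifs
    · exact Or.inr (Or.inl rfl)
    · exact Or.inl rfl
  · exact Or.inr (Or.inr ⟨i + 2, by omega, hl.kE i hi⟩)
  · exact Or.inr (Or.inr ⟨i + 1, by omega, hl.kS i hi⟩)
  · exact Or.inr (Or.inr ⟨i, by omega, hl.kW i hi⟩)
  · exact absurd rfl (hc x)

/-- a vertex of the grid `t` is not an end of another edge -/
theorem ne_core (hl : LayD a b p κ m K π) {t : ℕ} (ht : t < K) {x : GN} (hx : x.ok π) {v : V}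
    (hv : v = a ∨ v = b ∨ ∃ j < m, v = p j) : κ t (.v x) ≠ v := by
  obtain ⟨h1, h2, h3⟩ := hl.nc t ht x hx
  rcases hv with rfl | rfl | ⟨j, hj, rfl⟩
  · exact h1
  · exact h2
  · exact h3 j hj

theorem ne_grid (hl : LayD a b p κ m K π) {t : ℕ} (ht : t < K) {x : GN} (hx : x.ok π) {i : ℕ}
    (hi : i < K) (hit : i ≠ t) (c : GX) (hc : ∀ y, c = .v y → y.ok π) :
    κ t (.v x) ≠ κ i c := by
  rcases c with σ | σ | y
  · exact ne_core hl ht hx (corner_core hl hi (.X σ) fun z hz => by cases hz)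
  · exact ne_core hl ht hx (corner_core hl hi (.Y σ) fun z hz => by cases hz)
  · intro he
    exact hit (hl.kinj t ht i hi x y hx (hc y rfl) he).1.symm

theorem iso (hl : LayD a b p κ m K π) {t : ℕ} (ht : t < K) {x : GN} (hx : x.ok π) (v : V) :
    ¬ (GDt a b p κ m π t).Adj (κ t (.v x)) v := by
  intro hadj
  unfold GDt at hadj
  rw [SimpleGraph.fromEdgeSet_adj] at hadj
  have hM := hl.hM
  rcases hadj.1 with ⟨c, hc, he⟩ | ⟨i, hi, c, hc, he⟩
  · have h1 : κ t (.v x) ≠ (c.ends a b p).1 ∧ κ t (.v x) ≠ (c.ends a b p).2 := by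
      cases c with
      | ab => exact ⟨ne_core hl ht hx (Or.inl rfl), ne_core hl ht hx (Or.inr (Or.inl rfl))⟩
      | A j => exact ⟨ne_core hl ht hx (Or.inl rfl),
          ne_core hl ht hx (Or.inr (Or.inr ⟨j, hc, rfl⟩))⟩
      | B j => exact ⟨ne_core hl ht hx (Or.inr (Or.inl rfl)),
          ne_core hl ht hx (Or.inr (Or.inr ⟨j, hc, rfl⟩))⟩
      | I j k => exact ⟨ne_core hl ht hx (Or.inr (Or.inr ⟨j, hc.1.trans hc.2.2, rfl⟩)),
          ne_core hl ht hx (Or.inr (Or.inr ⟨k, hc.2.2, rfl⟩))⟩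
    rcases Sym2.eq_iff.1 he with ⟨h2, -⟩ | ⟨h2, -⟩
    · exact h1.1 h2
    · exact h1.2 h2
  · obtain ⟨o1, o2⟩ := ends_ok hM hc
    rcases Sym2.eq_iff.1 he with ⟨h2, -⟩ | ⟨h2, -⟩
    · exact ne_grid hl ht hx (hi.trans ht) hi.ne _ o1 h2
    · exact ne_grid hl ht hx (hi.trans ht) hi.ne _ o2 h2

theorem GDt_zero : GDt a b p κ m π 0 = SimpleGraph.fromEdgeSet (coreE a b p m) := by
  unfold GDt
  congr 1
  ext e
  simp

theorem GDt_succ (t : ℕ) : GDt a b p κ m π (t + 1) =
    GDt a b p κ m π t ⊔ SimpleGraph.fromEdgeSet (gridE (κ t) π) := by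
  unfold GDt
  rw [← SimpleGraph.fromEdgeSet_union]
  congr 1
  ext e
  simp only [Set.mem_union, Set.mem_ofPred_eq]
  constructor
  · rintro (h | ⟨i, hi, h⟩)
    · exact Or.inl (Or.inl h)
    · rcases Nat.lt_succ_iff_lt_or_eq.1 hi with h1 | h1
      · exact Or.inl (Or.inr ⟨i, h1, h⟩)
      · subst h1
        exact Or.inr h
  · rintro ((h | ⟨i, hi, h⟩) | h)
    · exact Or.inl h
    · exact Or.inr ⟨i, hi.trans (Nat.lt_succ_self t), h⟩
    · exact Or.inr ⟨t, Nat.lt_succ_self t, h⟩

theorem iter [Finite V] (hins : InsGrid V) (hl : LayD a b p κ m K π) : ∀ t, t ≤ K → ∃ f : V → ℂ,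
    IsRAC (GDt a b p κ m π t) f ∧ ∀ i, t ≤ i → i < K →
      XCross (GDt a b p κ m π t) f (κ i (.X false)) (κ i (.Y false)) (κ i (.X true))
        (κ i (.Y true)) := by
  have hm := hl.hm
  have hM := hl.hM
  intro t
  induction t with
  | zero =>
    intro _
    obtain ⟨x, y, hok⟩ := exists_seq m
    obtain ⟨f, hcd⟩ := exists_CD hl.ab hl.pa hl.pb hl.pinj hok
    refine ⟨f, by rw [GDt_zero]; exact hcd.rac, ?_⟩
    intro i _ hi
    rw [GDt_zero, hl.kN i hi, hl.kE i hi, hl.kS i hi, hl.kW i hi]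
    exact core_xcross hcd (by omega)
  | succ t ih =>
    intro ht
    have htK : t < K := ht
    obtain ⟨f, hf, hx⟩ := ih (by omega)
    obtain ⟨f', hf', hx'⟩ := hins _ f hf (κ t) π hM
      (hx t le_rfl (by omega))
      (fun x y hx hy he => (hl.kinj t htK t htK x y hx hy he).2)
      (fun x hx v => iso hl htK hx v)
    refine ⟨f', by rw [GDt_succ]; exact hf', ?_⟩
    intro i hi hiK
    rw [GDt_succ]
    have hub : ∀ i j, j < m → (if i % 2 = 0 then b else a) ≠ p j := by
      intro i j hj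
      split_ifs
      · exact (hl.pb j hj).symm
      · exact (hl.pa j hj).symm
    have pin := hl.pinj
    apply hx' _ _ _ _ (hx i (by omega) hiK)
    · rw [hl.kN i hiK, hl.kS i hiK, hl.kN t htK, hl.kS t htK]
      intro he
      rcases Sym2.eq_iff.1 he with ⟨-, h2⟩ | ⟨h1, -⟩
      · have := pin _ (by omega) _ (by omega) h2
        omega
      · exact hub i _ (by omega) h1
    · rw [hl.kN i hiK, hl.kS i hiK, hl.kE t htK, hl.kW t htK]
      intro he
      rcases Sym2.eq_iff.1 he with ⟨h1, -⟩ | ⟨h1, -⟩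
      · exact hub i _ (by omega) h1
      · exact hub i _ (by omega) h1
    · rw [hl.kE i hiK, hl.kW i hiK, hl.kN t htK, hl.kS t htK]
      intro he
      rcases Sym2.eq_iff.1 he with ⟨h1, -⟩ | ⟨-, h1⟩
      · exact hub t _ (by omega) h1.symm
      · exact hub t _ (by omega) h1.symm
    · rw [hl.kE i hiK, hl.kW i hiK, hl.kE t htK, hl.kW t htK]
      intro he
      rcases Sym2.eq_iff.1 he with ⟨h1, -⟩ | ⟨h1, h2⟩
      · have := pin _ (by omega) _ (by omega) h1
        omega
      · have e1 := pin _ (by omega) _ (by omega) h1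
        have e2 := pin _ (by omega) _ (by omega) h2
        omega

end

end DW

/-- iteration of `insert_grid` -/
theorem LayD.rac_of [Finite V] {a b : V} {p : ℕ → V} {κ : ℕ → GX → V} {m K : ℕ} {π : Par} (hins : InsGrid V)
    (hl : LayD a b p κ m K π) : ∃ f : V → ℂ, IsRAC (GDt a b p κ m π K) f := by
  obtain ⟨f, hf, -⟩ := DW.iter hins hl K le_rfl
  exact ⟨f, hf⟩

end Pool.Agent.Helper58.DG3
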