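import Pool.Agent.Helper60.DG3.DrawOf
import Pool.Agent.Helper59.DG3.Crs
import Pool.Agent.Helper59.DG3.Vtx
import Pool.Agent.Helper40.DG.Insert

/-!
# Threads: a grid is inserted at a crossing
-/

set_option autoImplicit false

namespace Pool.Agent.Helper60.DG3

open Pool.Agent.Helper18.RAC Pool.Agent.Helper58.DG3 Complex Filter Topology
open Pool.Agent.Helper82.DG (XCross)
open Pool.Agent.Helper40.DG (sc sc_seg sc_dotp sc_inj sc_cont sc_zero half_disj dotp_of_sym
  seg_of_sym dotp_comm' ball_seg exists_norm)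

/-- corners -/
def cr : Bool → Bool → GX
  | false, σ => .X σ
  | true, σ => .Y σ

/-- the kinds of the ends of the edges of a grid -/
theorem ends_cases {π : Par} (hM : 8 ≤ π.M) (c : GE) (hc : c.valid π) :
    (∃ x y : GN, c.ends π = (.v x, .v y) ∧ x.ok π ∧ y.ok π) ∨
    (∃ (β σ : Bool) (x : GN), c.ends π = (cr β σ, .v x) ∧ x.ok π ∧
      ∀ n s e w : ℝ, n ≠ 0 → s ≠ 0 → e ≠ 0 → w ≠ 0 →
        (layX π n s e w (cr β σ)).re * (lay π x).im -
          (layX π n s e w (cr β σ)).im * (lay π x).re ≠ 0) := by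
  obtain ⟨o1, o2⟩ := DW.ends_ok hM hc
  cases c with
  | yp σ j =>
    right
    have h0 : (0 : ℝ) < j + 1 := by positivity
    refine ⟨true, σ, .P σ j, rfl, hc, ?_⟩
    intro n s e w hn hs he hw
    cases σ <;> simp [cr, layX, lay, hs, hw, h0.ne']
  | xu σ c =>
    right
    have h0 : (0 : ℝ) < 2 * c + 1 := by positivity
    refine ⟨false, σ, .U σ c, rfl, hc.1, ?_⟩
    intro n s e w hn hs he hw
    cases σ <;> simp [cr, layX, lay, hn, he, h0.ne']
  | xp σ =>
    right
    refine ⟨false, !σ, .P σ (2 * π.M - 1), rfl, ?_, ?_⟩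
    · simp only [GN.ok]; omega
    · intro n s e w hn hs he hw
      cases σ <;> simp [cr, layX, lay, hn, he]
  | up σ c => exact Or.inl ⟨_, _, rfl, o1 _ rfl, o2 _ rfl⟩
  | pd σ c => exact Or.inl ⟨_, _, rfl, o1 _ rfl, o2 _ rfl⟩
  | dd σ c => exact Or.inl ⟨_, _, rfl, o1 _ rfl, o2 _ rfl⟩
  | pp σ j => exact Or.inl ⟨_, _, rfl, o1 _ rfl, o2 _ rfl⟩
  | pc σ j ε => exact Or.inl ⟨_, _, rfl, o1 _ rfl, o2 _ rfl⟩
  | pc' σ j ε => exact Or.inl ⟨_, _, rfl, o1 _ rfl, o2 _ rfl⟩
  | cc σ j => exact Or.inl ⟨_, _, rfl, o1 _ rfl, o2 _ rfl⟩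
  | uu => exact Or.inl ⟨_, _, rfl, o1 _ rfl, o2 _ rfl⟩
  | uq σ ε => exact Or.inl ⟨_, _, rfl, o1 _ rfl, o2 _ rfl⟩
  | qq => exact Or.inl ⟨_, _, rfl, o1 _ rfl, o2 _ rfl⟩
  | dr σ ε => exact Or.inl ⟨_, _, rfl, o1 _ rfl, o2 _ rfl⟩
  | uw σ c => exact Or.inl ⟨_, _, rfl, o1 _ rfl, o2 _ rfl⟩
  | nl σ x x' y => exact Or.inl ⟨_, _, rfl, o1 _ rfl, o2 _ rfl⟩
  | dg x y => exact Or.inl ⟨_, _, rfl, o1 _ rfl, o2 _ rfl⟩
  | ts k x y => exact Or.inl ⟨_, _, rfl, o1 _ rfl, o2 _ rfl⟩
  | tt k x y t => exact Or.inl ⟨_, _, rfl, o1 _ rfl, o2 _ rfl⟩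
  | te k x y => exact Or.inl ⟨_, _, rfl, o1 _ rfl, o2 _ rfl⟩

section

variable {V : Type*} {G : SimpleGraph V} {f : V → ℂ}

/-- the place of a small grid -/
theorem exists_scale [Finite V] (hf : IsRAC G f) {κ : GX → V} {π : Par}
    {n s e w : ℝ} (hn : 0 < n) (hs : 0 < s) (he : 0 < e) (hw : 0 < w)
    (hpos : ∀ β σ, f (κ (cr β σ)) = layX π n s e w (cr β σ))
    (hx : XCross G f (κ (.X false)) (κ (.Y false)) (κ (.X true)) (κ (.Y true)))
    (hfin : Finite {x : GN // x.ok π}) :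
    ∃ τ δ : ℝ, 0 < τ ∧ 0 < δ ∧ 2 * π.M + 3 < n / (2 * τ) ∧ 2 * π.M + 3 < s / (2 * τ) ∧
      2 * π.M + 3 < e / (2 * τ) ∧ 2 * π.M + 3 < w / (2 * τ) ∧
      (∀ v, δ ≤ ‖f v‖) ∧
      (∀ a b, G.Adj a b → s(a, b) ≠ s(κ (.X false), κ (.Y false)) →
        s(a, b) ≠ s(κ (.X true), κ (.Y true)) → ∀ z, ‖z‖ < δ → z ∉ segment ℝ (f a) (f b)) ∧
      (∀ x : GN, x.ok π → ‖sc τ (lay π x)‖ < δ) ∧
      (∀ x : GN, x.ok π → ∀ β σ, (layX π n s e w (cr β σ)).re * (lay π x).im -
          (layX π n s e w (cr β σ)).im * (lay π x).re ≠ 0 →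
        ∀ v, v ≠ κ (cr β σ) → Dt (f (κ (cr β σ))) (sc τ (lay π x)) (f v) ≠ 0) ∧
      (∀ x : GN, x.ok π → ∀ β σ a b, G.Adj a b → s(a, b) ≠ s(κ (.X false), κ (.Y false)) →
        s(a, b) ≠ s(κ (.X true), κ (.Y true)) → a ≠ κ (cr β σ) → b ≠ κ (cr β σ) →
        Disjoint (segment ℝ (f (κ (cr β σ))) (sc τ (lay π x))) (segment ℝ (f a) (f b))) := by
  obtain ⟨hNS, hEW, hne, -, hun⟩ := hx
  have pN : f (κ (.X false)) = ⟨0, n⟩ := hpos false false
  have pE : f (κ (.X true)) = ⟨e, 0⟩ := hpos false true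
  have pS : f (κ (.Y false)) = ⟨0, -s⟩ := hpos true false
  have pW : f (κ (.Y true)) = ⟨-w, 0⟩ := hpos true true
  have h0NS : (0 : ℂ) ∈ openSegment ℝ (f (κ (.X false))) (f (κ (.Y false))) := by
    rw [pN, pS, mem_openSegment_iff]
    refine ⟨n / (n + s), by positivity, ?_, by simp, ?_⟩
    · rw [div_lt_one (by positivity)]; linarith
    · simp only [Complex.zero_im]; field_simp; ring
  have h0EW : (0 : ℂ) ∈ openSegment ℝ (f (κ (.X true))) (f (κ (.Y true))) := by
    rw [pE, pW, mem_openSegment_iff]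
    refine ⟨e / (e + w), by positivity, ?_, ?_, by simp⟩
    · rw [div_lt_one (by positivity)]; linarith
    · simp only [Complex.zero_re]; field_simp; ring
  have hz0 : ∀ v, f v ≠ 0 := by
    intro v hv
    by_cases h1 : v = κ (.X false)
    · rw [h1, pN] at hv
      have := congrArg Complex.im hv
      simp at this
      exact hn.ne' this
    · by_cases h2 : v = κ (.Y false)
      · rw [h2, pS] at hv
        have := congrArg Complex.im hv
        simp at this
        exact hs.ne' this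
      · exact hf.vtx _ _ v hNS h1 h2 (by rw [hv]; exact openSegment_subset_segment ℝ _ _ h0NS)
  have hz1 : ∀ a b, G.Adj a b → s(a, b) ≠ s(κ (.X false), κ (.Y false)) →
      s(a, b) ≠ s(κ (.X true), κ (.Y true)) → (0 : ℂ) ∉ segment ℝ (f a) (f b) := by
    intro a b hab h1 h2 h3
    rw [← insert_endpoints_openSegment] at h3
    rcases h3 with h3 | h3 | h3
    · exact hz0 a h3.symm
    · exact hz0 b h3.symm
    · exact (hun a b hab h1 h2 0 h3).1 h0NS
  -- the radius
  obtain ⟨δ, hδ, hδ1, hδ2⟩ : ∃ δ : ℝ, 0 < δ ∧ (∀ v, δ ≤ ‖f v‖) ∧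
      ∀ a b, G.Adj a b → s(a, b) ≠ s(κ (.X false), κ (.Y false)) →
        s(a, b) ≠ s(κ (.X true), κ (.Y true)) → ∀ z, ‖z‖ < δ → z ∉ segment ℝ (f a) (f b) := by
    have h1 : ∀ᶠ δ : ℝ in 𝓝[>] 0, ∀ v, δ ≤ ‖f v‖ := by
      rw [eventually_all]
      intro v
      have : 0 < ‖f v‖ := norm_pos_iff.2 (hz0 v)
      exact nhdsWithin_le_nhds (Iic_mem_nhds this)
    have h2 : ∀ᶠ δ : ℝ in 𝓝[>] 0, ∀ a b, G.Adj a b →
        s(a, b) ≠ s(κ (.X false), κ (.Y false)) →
        s(a, b) ≠ s(κ (.X true), κ (.Y true)) → ∀ z, ‖z‖ < δ → z ∉ segment ℝ (f a) (f b) := by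
      rw [eventually_all]
      intro a
      rw [eventually_all]
      intro b
      rw [eventually_imp_distrib_left]
      intro hab
      rw [eventually_imp_distrib_left]
      intro h1
      rw [eventually_imp_distrib_left]
      intro h2
      have h3 : (segment ℝ (f a) (f b))ᶜ ∈ 𝓝 (0 : ℂ) :=
        (isClosed_seg _ _).isOpen_compl.mem_nhds (hz1 a b hab h1 h2)
      obtain ⟨ε, hε, hsub⟩ := Metric.mem_nhds_iff.1 h3
      have h4 : ∀ᶠ δ : ℝ in 𝓝[>] 0, δ ≤ ε := nhdsWithin_le_nhds (Iic_mem_nhds hε)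
      filter_upwards [h4] with δ hδ z hz
      exact hsub (by simpa using hz.trans_le hδ)
    have h0 : ∀ᶠ δ : ℝ in 𝓝[>] 0, 0 < δ := self_mem_nhdsWithin
    obtain ⟨δ, h3, h4, h5⟩ := (h0.and (h1.and h2)).exists
    exact ⟨δ, h3, h4, h5⟩
  have e1 : ∀ {r : ℝ}, 0 < r → ∀ᶠ τ : ℝ in 𝓝[>] 0, 2 * π.M + 3 < r / (2 * τ) := by
    intro r hr
    have h0 : 0 < r / (2 * (2 * (π.M : ℝ) + 3)) := by positivity
    have h1 : ∀ᶠ τ : ℝ in 𝓝[>] 0, τ < r / (2 * (2 * (π.M : ℝ) + 3)) :=
      nhdsWithin_le_nhds (Iio_mem_nhds h0)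
    filter_upwards [h1, self_mem_nhdsWithin] with τ h2 h3
    have h3' : 0 < τ := h3
    rw [lt_div_iff₀ (by positivity)] at h2 ⊢
    linarith
  have e2 : ∀ᶠ τ : ℝ in 𝓝[>] 0, ∀ x : {x : GN // x.ok π}, ‖sc τ (lay π x.1)‖ < δ := by
    rw [eventually_all]
    intro x
    have h1 : Continuous fun τ : ℝ => ‖sc τ (lay π x.1)‖ := (sc_cont _).norm
    have h2 : ∀ᶠ τ : ℝ in 𝓝 0, ‖sc τ (lay π x.1)‖ < δ := by
      apply h1.continuousAt.eventually_lt continuousAt_const
      simpa [sc_zero] using hδ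
    exact h2.filter_mono nhdsWithin_le_nhds
  have e3 : ∀ᶠ τ : ℝ in 𝓝[>] 0, ∀ (x : {x : GN // x.ok π}) (β σ : Bool),
      (layX π n s e w (cr β σ)).re * (lay π x.1).im -
          (layX π n s e w (cr β σ)).im * (lay π x.1).re ≠ 0 →
        ∀ v, v ≠ κ (cr β σ) → Dt (f (κ (cr β σ))) (sc τ (lay π x.1)) (f v) ≠ 0 := by
    rw [eventually_all]
    intro x
    rw [eventually_all]
    intro β
    rw [eventually_all]
    intro σ
    rw [eventually_imp_distrib_left]
    intro h1
    rw [eventually_all]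
    intro v
    rw [eventually_imp_distrib_left]
    intro h2
    rw [← hpos] at h1
    have h3 := near' (P := f (κ (cr β σ))) (g := lay π x.1) (X := f v)
      (fun h => h2 (hf.inj h)) h1
    exact h3.filter_mono (nhdsWithin_mono _ fun τ (hτ : 0 < τ) => hτ.ne')
  have e4 : ∀ᶠ τ : ℝ in 𝓝[>] 0, ∀ (x : {x : GN // x.ok π}) (β σ : Bool) (a b : V), G.Adj a b →
      s(a, b) ≠ s(κ (.X false), κ (.Y false)) →
        s(a, b) ≠ s(κ (.X true), κ (.Y true)) → a ≠ κ (cr β σ) → b ≠ κ (cr β σ) →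
        Disjoint (segment ℝ (f (κ (cr β σ))) (sc τ (lay π x.1))) (segment ℝ (f a) (f b)) := by
    rw [eventually_all]
    intro x
    rw [eventually_all]
    intro β
    rw [eventually_all]
    intro σ
    rw [eventually_all]
    intro a
    rw [eventually_all]
    intro b
    rw [eventually_imp_distrib_left]
    intro hab
    rw [eventually_imp_distrib_left]
    intro h1
    rw [eventually_imp_distrib_left]
    intro h2
    rw [eventually_imp_distrib_left]
    intro h3
    rw [eventually_imp_distrib_left]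
    intro h4
    have h5 : ∀ᶠ τ : ℝ in 𝓝 0, Disjoint (segment ℝ (f (κ (cr β σ))) (sc τ (lay π x.1)))
        (segment ℝ (f a) (f b)) := by
      refine far' (h := fun τ => sc τ (lay π x.1)) (sc_cont _) (isClosed_seg _ _) ?_
      rw [sc_zero]
      have h6 := hun a b hab h1 h2
      cases β <;> cases σ
      · exact half_disj hf hNS h0NS hab h3 h4 fun z hz => (h6 z hz).1
      · exact half_disj hf hEW h0EW hab h3 h4 fun z hz => (h6 z hz).2
      · refine half_disj hf hNS.symm (by rw [openSegment_symm]; exact h0NS) hab h3 h4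
          fun z hz => ?_
        rw [openSegment_symm]
        exact (h6 z hz).1
      · refine half_disj hf hEW.symm (by rw [openSegment_symm]; exact h0EW) hab h3 h4
          fun z hz => ?_
        rw [openSegment_symm]
        exact (h6 z hz).2
    exact h5.filter_mono nhdsWithin_le_nhds
  have e0 : ∀ᶠ τ : ℝ in 𝓝[>] 0, 0 < τ := self_mem_nhdsWithin
  obtain ⟨τ, h1, h2, h3, h4, h5, h6, h7, h8⟩ := (e0.and ((e1 hn).and
    ((e1 hs).and ((e1 he).and ((e1 hw).and (e2.and (e3.and e4))))))).exists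
  exact ⟨τ, δ, h1, hδ, h2, h3, h4, h5, hδ1, hδ2, fun x hx => h6 ⟨x, hx⟩,
    fun x hx => h7 ⟨x, hx⟩, fun x hx => h8 ⟨x, hx⟩⟩

end

variable {V : Type*}

/-- `layout_inj` and `layout_vtx` are hypotheses here -/
theorem insert_core [Finite V] {G : SimpleGraph V} {f : V → ℂ} (hf : IsRAC G f) {κ : GX → V}
    {π : Par} (hM : 8 ≤ π.M)
    (layout_inj : ∀ {n s e w : ℝ}, 2 * (π.M : ℝ) + 3 < n → 2 * (π.M : ℝ) + 3 < s →
      2 * (π.M : ℝ) + 3 < e → 2 * (π.M : ℝ) + 3 < w → ∀ x y : GX, x.ok π → y.ok π →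
      layX π n s e w x = layX π n s e w y → x = y)
    (layout_vtx : ∀ {n s e w : ℝ}, 2 * (π.M : ℝ) + 3 < n → 2 * (π.M : ℝ) + 3 < s →
      2 * (π.M : ℝ) + 3 < e → 2 * (π.M : ℝ) + 3 < w → ∀ k : GF, k.valid π → ∀ x : GX, x.ok π →
      x ≠ (k.ends π).1 → x ≠ (k.ends π).2 →
      layX π n s e w x ∉ openSegment ℝ (layX π n s e w (k.ends π).1)
        (layX π n s e w (k.ends π).2))
    (hx : XCross G f (κ (.X false)) (κ (.Y false)) (κ (.X true)) (κ (.Y true)))
    (hinj : ∀ x y : GN, x.ok π → y.ok π → κ (.v x) = κ (.v y) → x = y)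
    (hiso : ∀ x : GN, x.ok π → ∀ v, ¬ G.Adj (κ (.v x)) v) :
    ∃ f' : V → ℂ, IsRAC (G ⊔ SimpleGraph.fromEdgeSet (gridE κ π)) f' ∧
      ∀ n s e w, XCross G f n s e w →
        s(n, s) ≠ s(κ (.X false), κ (.Y false)) → s(n, s) ≠ s(κ (.X true), κ (.Y true)) →
        s(e, w) ≠ s(κ (.X false), κ (.Y false)) → s(e, w) ≠ s(κ (.X true), κ (.Y true)) →
        XCross (G ⊔ SimpleGraph.fromEdgeSet (gridE κ π)) f' n s e w := by
  classical
  have hfin : Finite {x : GN // x.ok π} :=
    Finite.of_injective (fun x => κ (.v x.1)) fun x y h => Subtype.ext (hinj x.1 y.1 x.2 y.2 h)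
  obtain ⟨f₁, n, s, e, w, hn, hs, he, hw, hf₁, pN, pS, pE, pW, hX⟩ := exists_norm hf hx
  have hx1 := hX _ _ _ _ hx
  have hpos : ∀ β σ, f₁ (κ (cr β σ)) = layX π n s e w (cr β σ) := by
    intro β σ
    cases β <;> cases σ
    · exact pN
    · exact pE
    · exact pS
    · exact pW
  obtain ⟨τ, δ, hτ, hδ, hn', hs', he', hw', d1, d2, d3, d4, d5⟩ :=
    exists_scale hf₁ hn hs he hw hpos hx1 hfin
  obtain ⟨hNS, hEW, hne, -, hun⟩ := hx1
  -- new vertices
  set New : V → Prop := fun v => ∃ x : GN, x.ok π ∧ κ (.v x) = v with hNew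
  have old1 : ∀ {u v}, G.Adj u v → ¬ New u := by
    rintro u v huv ⟨x, hx, rfl⟩
    exact hiso x hx v huv
  have old2 : ∀ {u v}, G.Adj u v → ¬ New v := fun huv => old1 huv.symm
  set g : V → ℂ := fun v => if h : New v then sc τ (lay π h.choose) else f₁ v with hg
  have g_old : ∀ {v}, ¬ New v → g v = f₁ v := fun {v} hv => by rw [hg]; exact dif_neg hv
  have g_new : ∀ {x}, x.ok π → g (κ (.v x)) = sc τ (lay π x) := by
    intro x hx
    have h : New (κ (.v x)) := ⟨x, hx, rfl⟩
    have h1 : h.choose = x := hinj _ _ h.choose_spec.1 hx h.choose_spec.2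
    rw [hg]
    simp only [dif_pos h, h1]
  have cr_old : ∀ β σ, ¬ New (κ (cr β σ)) := by
    intro β σ
    cases β <;> cases σ
    · exact old1 hNS
    · exact old1 hEW
    · exact old2 hNS
    · exact old2 hEW
  have h2τ : (2 * τ : ℝ) ≠ 0 := by positivity
  have g_lay : ∀ y : GX, y.ok π → g (κ y) =
      sc τ (layX π (n / (2 * τ)) (s / (2 * τ)) (e / (2 * τ)) (w / (2 * τ)) y) := by
    intro y hy
    have cX : ∀ σ, g (κ (.X σ)) =
        sc τ (layX π (n / (2 * τ)) (s / (2 * τ)) (e / (2 * τ)) (w / (2 * τ)) (.X σ)) := by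
      intro σ
      have h1 := cr_old false σ
      have h2 := hpos false σ
      simp only [cr] at h1 h2
      rw [g_old h1, h2]
      cases σ <;> simp only [layX, sc, mul_zero] <;> congr 1 <;> field_simp
    have cY : ∀ σ, g (κ (.Y σ)) =
        sc τ (layX π (n / (2 * τ)) (s / (2 * τ)) (e / (2 * τ)) (w / (2 * τ)) (.Y σ)) := by
      intro σ
      have h1 := cr_old true σ
      have h2 := hpos true σ
      simp only [cr] at h1 h2
      rw [g_old h1, h2]
      cases σ <;> simp only [layX, sc, mul_zero] <;> congr 1 <;> field_simp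
    cases y with
    | X σ => exact cX σ
    | Y σ => exact cY σ
    | v x => exact g_new hy
  have ends_ok : ∀ k : GF, k.valid π → (k.ends π).1.ok π ∧ (k.ends π).2.ok π := by
    intro k hk
    cases k with
    | ns => exact ⟨trivial, trivial⟩
    | ew => exact ⟨trivial, trivial⟩
    | g c =>
      rcases ends_cases hM c hk with ⟨x, y, h1, h2, h3⟩ | ⟨β, σ, x, h1, h2, -⟩
      · simp only [GF.ends, h1]
        exact ⟨h2, h3⟩
      · simp only [GF.ends, h1]
        refine ⟨?_, h2⟩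
        cases β <;> exact trivial
  -- the layout
  have L_vtx : ∀ k : GF, k.valid π → ∀ y : GX, y.ok π → κ y ≠ κ (k.ends π).1 →
      κ y ≠ κ (k.ends π).2 → g (κ y) ∉ openSegment ℝ (g (κ (k.ends π).1)) (g (κ (k.ends π).2)) := by
    intro k hk y hy hy1 hy2 hmem
    rw [g_lay _ (ends_ok k hk).1, g_lay _ (ends_ok k hk).2, g_lay y hy] at hmem
    obtain ⟨z₀, h1, h2, h3⟩ := sc_seg hτ hmem
    refine layout_vtx hn' hs' he' hw' k hk y hy (fun h => hy1 (by rw [h]))
      (fun h => hy2 (by rw [h])) ?_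
    convert h1 using 1
    apply Complex.ext
    · rw [h2]; simp only [sc]; field_simp
    · rw [h3]; simp only [sc]; field_simp
  have L_crs : ∀ k k' : GF, k.valid π → k'.valid π → k ≠ k' → ∀ z,
      z ∈ openSegment ℝ (g (κ (k.ends π).1)) (g (κ (k.ends π).2)) →
      z ∈ openSegment ℝ (g (κ (k'.ends π).1)) (g (κ (k'.ends π).2)) →
      dotp (g (κ (k.ends π).1)) (g (κ (k.ends π).2)) (g (κ (k'.ends π).1))
        (g (κ (k'.ends π).2)) = 0 := by
    intro k k' hk hk' hne' z hz hz'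
    rw [g_lay _ (ends_ok k hk).1, g_lay _ (ends_ok k hk).2] at hz ⊢
    rw [g_lay _ (ends_ok k' hk').1, g_lay _ (ends_ok k' hk').2] at hz' ⊢
    obtain ⟨z₀, h1, h2, h3⟩ := sc_seg hτ hz
    obtain ⟨z₁, h4, h5, h6⟩ := sc_seg hτ hz'
    have h7 : z₁ = z₀ := Complex.ext (by rw [h5, h2]) (by rw [h6, h3])
    rw [h7] at h4
    rw [sc_dotp, layout_crs hM hn' hs' he' hw' k k' hk hk' hne' z₀ h1 h4, mul_zero]
  -- a new edge and an old edge which is not a diagonal
  have hno : ∀ c : GE, c.valid π → ∀ a b, G.Adj a b → s(a, b) ≠ s(κ (.X false), κ (.Y false)) →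
      s(a, b) ≠ s(κ (.X true), κ (.Y true)) → ∀ z, z ∈ openSegment ℝ (g a) (g b) →
      z ∉ openSegment ℝ (g (κ (c.ends π).1)) (g (κ (c.ends π).2)) := by
    intro c hc a b hab h1 h2 z hz hz'
    rw [g_old (old1 hab), g_old (old2 hab)] at hz
    rcases ends_cases hM c hc with ⟨x, y, h3, h4, h5⟩ | ⟨β, σ, x, h3, h4, h5⟩
    · rw [h3] at hz'
      simp only at hz'
      rw [g_new h4, g_new h5] at hz'
      exact d2 a b hab h1 h2 z (ball_seg (d3 x h4) (d3 y h5) hz')
        (openSegment_subset_segment ℝ _ _ hz)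
    · rw [h3] at hz'
      simp only at hz'
      rw [g_new h4, g_old (cr_old β σ)] at hz'
      have h6 := d4 x h4 β σ (h5 n s e w hn.ne' hs.ne' he.ne' hw.ne')
      by_cases ha : a = κ (cr β σ)
      · rw [ha] at hz hab
        exact h6 b hab.ne' (Dt_zero_of_two hz' hz)
      · by_cases hb : b = κ (cr β σ)
        · rw [hb, openSegment_symm] at hz
          rw [hb] at hab
          exact h6 a hab.ne (Dt_zero_of_two hz' hz)
        · exact Set.disjoint_left.1 (d5 x h4 β σ a b hab h1 h2 ha hb)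
            (openSegment_subset_segment ℝ _ _ hz') (openSegment_subset_segment ℝ _ _ hz)
  have hadj : ∀ u v, (G ⊔ SimpleGraph.fromEdgeSet (gridE κ π)).Adj u v →
      G.Adj u v ∨ ∃ c : GE, c.valid π ∧ s(u, v) = s(κ (c.ends π).1, κ (c.ends π).2) := by
    intro u v huv
    rw [SimpleGraph.sup_adj, SimpleGraph.fromEdgeSet_adj] at huv
    rcases huv with h | ⟨h, -⟩
    · exact Or.inl h
    · exact Or.inr h
  -- an old edge and a new edge
  have h_on : ∀ a b, G.Adj a b → ∀ c : GE, c.valid π → ∀ z, z ∈ openSegment ℝ (g a) (g b) →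
      z ∈ openSegment ℝ (g (κ (c.ends π).1)) (g (κ (c.ends π).2)) →
      dotp (g a) (g b) (g (κ (c.ends π).1)) (g (κ (c.ends π).2)) = 0 := by
    intro a b hab c hc z hz hz'
    by_cases h1 : s(a, b) = s(κ (.X false), κ (.Y false))
    · rw [seg_of_sym h1] at hz
      exact dotp_of_sym h1 (L_crs .ns (.g c) trivial hc (by simp) z hz hz')
    · by_cases h2 : s(a, b) = s(κ (.X true), κ (.Y true))
      · rw [seg_of_sym h2] at hz
        exact dotp_of_sym h2 (L_crs .ew (.g c) trivial hc (by simp) z hz hz')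
      · exact absurd hz' (hno c hc a b hab h1 h2 z hz)
  refine ⟨g, ?_, ?_⟩
  · refine IsRAC.of_codes (ι := (V × V) ⊕ GE)
      (fun c => match c with
        | .inl e => e
        | .inr c => (κ (c.ends π).1, κ (c.ends π).2))
      (fun c => match c with
        | .inl e => G.Adj e.1 e.2
        | .inr c => c.valid π) ?_ ?_ ?_ ?_
    · intro u v huv
      rcases hadj u v huv with h | ⟨c, hc, h⟩
      · exact ⟨.inl (u, v), h, rfl⟩
      · exact ⟨.inr c, hc, h⟩
    · intro u v huv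
      by_cases hu : New u
      · obtain ⟨x, hx', rfl⟩ := hu
        by_cases hv : New v
        · obtain ⟨y, hy, rfl⟩ := hv
          rw [g_new hx', g_new hy] at huv
          have h1 := sc_inj hτ huv
          have h2 := layout_inj hn' hs' he' hw' (.v x) (.v y) hx' hy h1
          rw [h2]
        · exfalso
          rw [g_new hx', g_old hv] at huv
          have h1 := d3 x hx'
          rw [huv] at h1
          exact absurd (d1 v) (not_le.2 h1)
      · by_cases hv : New v
        · obtain ⟨y, hy, rfl⟩ := hv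
          exfalso
          rw [g_new hy, g_old hu] at huv
          have h1 := d3 y hy
          rw [← huv] at h1
          exact absurd (d1 u) (not_le.2 h1)
        · rw [g_old hu, g_old hv] at huv
          exact hf₁.inj huv
    · rintro (⟨a, b⟩ | c) v hc hv1 hv2 hmem
      · simp only at hc hv1 hv2 hmem
        by_cases hv : New v
        · obtain ⟨x, hx', rfl⟩ := hv
          by_cases h1 : s(a, b) = s(κ (.X false), κ (.Y false))
          · rw [seg_of_sym h1] at hmem
            refine L_vtx .ns trivial (.v x) hx' ?_ ?_ hmem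
            · intro h
              exact cr_old false false ⟨x, hx', h⟩
            · intro h
              exact cr_old true false ⟨x, hx', h⟩
          · by_cases h2 : s(a, b) = s(κ (.X true), κ (.Y true))
            · rw [seg_of_sym h2] at hmem
              refine L_vtx .ew trivial (.v x) hx' ?_ ?_ hmem
              · intro h
                exact cr_old false true ⟨x, hx', h⟩
              · intro h
                exact cr_old true true ⟨x, hx', h⟩
            · rw [g_new hx', g_old (old1 hc), g_old (old2 hc)] at hmem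
              exact d2 a b hc h1 h2 _ (d3 x hx') (openSegment_subset_segment ℝ _ _ hmem)
        · rw [g_old hv, g_old (old1 hc), g_old (old2 hc)] at hmem
          exact hf₁.vtx a b v hc hv1 hv2 (openSegment_subset_segment ℝ _ _ hmem)
      · simp only at hc hv1 hv2 hmem
        by_cases hv : New v
        · obtain ⟨x, hx', rfl⟩ := hv
          exact L_vtx (.g c) hc (.v x) hx' hv1 hv2 hmem
        · rw [g_old hv] at hmem
          rcases ends_cases hM c hc with ⟨x, y, h3, h4, h5⟩ | ⟨β, σ, x, h3, h4, h5⟩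
          · rw [h3] at hmem
            simp only at hmem
            rw [g_new h4, g_new h5] at hmem
            exact absurd (d1 v) (not_le.2 (ball_seg (d3 x h4) (d3 y h5) hmem))
          · rw [h3] at hmem hv1
            simp only at hmem hv1
            rw [g_new h4, g_old (cr_old β σ)] at hmem
            exact d4 x h4 β σ (h5 n s e w hn.ne' hs.ne' he.ne' hw.ne') v hv1
              (Dt_zero_of_mem' hmem)
    · rintro (⟨a, b⟩ | c) (⟨a', b'⟩ | c') hc hc' hne' z hz hz'
      · simp only at hc hc' hne' hz hz' ⊢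
        rw [g_old (old1 hc), g_old (old2 hc)] at hz ⊢
        rw [g_old (old1 hc'), g_old (old2 hc')] at hz' ⊢
        exact hf₁.dot hc hc' hne' hz hz'
      · exact h_on a b hc c' hc' z hz hz'
      · exact dotp_comm' (h_on a' b' hc' c hc z hz' hz)
      · refine L_crs (.g c) (.g c') hc hc' ?_ z hz hz'
        intro h
        injection h with h
        rw [h] at hne'
        exact hne' rfl
  · intro n' s' e' w' hXo h1 h2 h3 h4
    obtain ⟨k1, k2, k3, ⟨q, k4, k5⟩, k6⟩ := hX _ _ _ _ hXo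
    refine ⟨Or.inl k1, Or.inl k2, k3, ⟨q, ?_, ?_⟩, ?_⟩
    · rw [g_old (old1 k1), g_old (old2 k1)]; exact k4
    · rw [g_old (old1 k2), g_old (old2 k2)]; exact k5
    · intro x y hxy hne1 hne2 z hz
      rcases hadj x y hxy with h | ⟨c, hc, h⟩
      · rw [g_old (old1 h), g_old (old2 h)] at hz
        rw [g_old (old1 k1), g_old (old2 k1), g_old (old1 k2), g_old (old2 k2)]
        exact k6 x y h hne1 hne2 z hz
      · rw [seg_of_sym h] at hz
        exact ⟨fun h5 => hno c hc n' s' k1 h1 h2 z h5 hz,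
          fun h5 => hno c hc e' w' k2 h3 h4 z h5 hz⟩


theorem insGrid (V : Type*) [Finite V] : InsGrid V :=
  fun _ _ hf _ _ hM hx hinj hiso => insert_core hf hM
    (fun hn hs he hw => layout_inj hM hn hs he hw)
    (fun hn hs he hw => layout_vtx hM hn hs he hw) hx hinj hiso

end Pool.Agent.Helper60.DG3

namespace Pool.Agent.Helper58.DG3

open Pool.Agent.Helper18.RAC Complex

/-- the graph of a layout is drawable -/
theorem LayD.rac {V : Type*} [Finite V] {a b : V} {p : ℕ → V} {κ : ℕ → GX → V} {m K : ℕ}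
    {π : Par} (hl : LayD a b p κ m K π) : ∃ f : V → ℂ, IsRAC (GDt a b p κ m π K) f :=
  LayD.rac_of (Pool.Agent.Helper60.DG3.insGrid V) hl

end Pool.Agent.Helper58.DG3
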