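import Pool.Agent.Helper29.DG3.Num1

/-!
# Threads: numbers of the layout of a grid, second half: vertices and points of the edges
-/

set_option autoImplicit false
set_option linter.unusedVariables false

namespace Pool.Agent.Helper59.DG3

open Pool.Agent.Helper58.DG3

/-- a point of an open segment in coordinates -/
theorem seg_pt {z a b : ℂ} (h : z ∈ openSegment ℝ a b) :
    ∃ t : ℝ, 0 < t ∧ t < 1 ∧ z.re = (1 - t) * a.re + t * b.re ∧
      z.im = (1 - t) * a.im + t * b.im := by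
  obtain ⟨p, q, hp, hq, hpq, rfl⟩ := h
  have hp' : p = 1 - q := by linarith
  subst hp'
  exact ⟨q, hq, by linarith, by simp, by simp⟩

theorem mix_gt {t a b c : ℝ} (h0 : 0 < t) (h1 : t < 1) (ha : c < a) (hb : c ≤ b) :
    c < (1 - t) * a + t * b := by
  have g1 : 0 < (1 - t) * (a - c) := mul_pos (by linarith) (by linarith)
  have g2 : 0 ≤ t * (b - c) := mul_nonneg h0.le (by linarith)
  linarith

theorem mix_lt {t a b c : ℝ} (h0 : 0 < t) (h1 : t < 1) (ha : a ≤ c) (hb : b < c) :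
    (1 - t) * a + t * b < c := by
  have g1 : 0 ≤ (1 - t) * (c - a) := mul_nonneg (by linarith) (by linarith)
  have g2 : 0 < t * (c - b) := mul_pos h0 (by linarith)
  linarith

variable {π : Par} {k k' x y x' y' m m' : ℕ}

/-- the upper end of a vertical link -/
theorem im_even (h : π.St k x y) (hm : m ≤ π.l) :
    (m = 0 ∧ (lay π (.T k x y (2 * m))).im =
        2 * (((π.pp k x y m).2 : ℝ) + π.R) + 4 + (xi k) ^ 2 / 2) ∨
      (1 ≤ m ∧ (lay π (.T k x y (2 * m))).im =
        2 * (((π.pp k x y m).2 : ℝ) + π.R - π.fy k) + 4 + xi k) := by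
  rcases Nat.eq_zero_or_pos m with rfl | hm0
  · left
    refine ⟨rfl, ?_⟩
    simp only [lay, Par.pp, mul_zero, if_true]
    push_cast
    ring
  · right
    refine ⟨hm0, ?_⟩
    obtain ⟨j, rfl⟩ : ∃ j, m = j + 1 := ⟨m - 1, by omega⟩
    have e1 : ¬ (2 * (j + 1) = 0) := by omega
    have e2 : ¬ (2 * (j + 1) = 2 * π.l + 1) := by omega
    have e3 : (2 * (j + 1) - 1) / 2 = j := by omega
    simp only [lay, Par.pp, Par.qq, e1, e2, e3, if_false]
    push_cast
    ring

/-- the lower end of a vertical link -/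
theorem im_odd (h : π.St k x y) (hm : m ≤ π.l) :
    (m = π.l ∧ (lay π (.T k x y (2 * m + 1))).im =
        2 * ((π.pp k x y m).2 : ℝ) + 6 - (2 - xi k) ^ 2 / 2) ∨
      (m < π.l ∧ (lay π (.T k x y (2 * m + 1))).im =
        2 * ((π.qq k x y m).2 : ℝ) + 4 + xi k) := by
  rcases hm.eq_or_lt with rfl | hml
  · left
    refine ⟨rfl, ?_⟩
    have e1 : ¬ (2 * π.l + 1 = 0) := by omega
    simp only [lay, e1, if_false, if_true]
  · right
    refine ⟨hml, ?_⟩
    have e1 : ¬ (2 * m + 1 = 0) := by omega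
    have e2 : ¬ (2 * m + 1 = 2 * π.l + 1) := by omega
    have e3 : (2 * m + 1 - 1) / 2 = m := by omega
    simp only [lay, e1, e2, e3, if_false]

theorem re_even : (lay π (.T k x y (2 * m))).re = 2 * ((π.pp k x y m).1 : ℝ) + 4 + xi k := by
  have e3 : (2 * m) / 2 = m := by omega
  simp only [lay, e3]

theorem re_odd : (lay π (.T k x y (2 * m + 1))).re = 2 * ((π.pp k x y m).1 : ℝ) + 4 + xi k := by
  have e3 : (2 * m + 1) / 2 = m := by omega
  simp only [lay, e3]

/-- the other vertices: `p` is the base of the vertical link, `q` of the horizontal link -/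
theorem vm_odd (h : π.St k x y) (hm : m < π.l) : Vm π.R (InL π.D) k (π.pp k x y m) (π.qq k x y m)
    (lay π (.T k x y (2 * m + 1))).re (lay π (.T k x y (2 * m + 1))).im := by
  obtain ⟨c1, c2, c3, c4⟩ := cl_num h.1
  refine ⟨pp_inL h m, qq_inL h m, ?_, ?_, ?_, ?_, re_odd, ?_⟩
  · simp only [Par.qq]
    omega
  · simp only [Par.qq]
    omega
  · simp only [Par.qq]
    omega
  · simp only [Par.qq]
    omega
  · rcases im_odd h hm.le with ⟨g1, g2⟩ | ⟨g1, g2⟩
    · omega
    · exact g2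

theorem pp_succ_fst (π : Par) (k x y m : ℕ) :
    (π.pp k x y (m + 1)).1 = (π.qq k x y m).1 + π.R - π.fx k := by
  simp only [Par.pp, Par.qq]
  push_cast
  ring

theorem pp_succ_snd (π : Par) (k x y m : ℕ) :
    (π.pp k x y (m + 1)).2 = (π.qq k x y m).2 - π.R + π.fy k := by
  simp only [Par.pp, Par.qq]
  push_cast
  ring

theorem vm_even (h : π.St k x y) (hm : m < π.l) :
    Vm π.R (InL π.D) k (π.pp k x y (m + 1)) (π.qq k x y m)
    (lay π (.T k x y (2 * m + 2))).re (lay π (.T k x y (2 * m + 2))).im := by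
  obtain ⟨c1, c2, c3, c4⟩ := cl_num h.1
  have s1 := pp_succ_fst π k x y m
  have s2 := pp_succ_snd π k x y m
  refine ⟨pp_inL h (m + 1), qq_inL h m, ?_, ?_, ?_, ?_, ?_, ?_⟩
  · omega
  · omega
  · omega
  · omega
  · have := @re_even π k x y (m + 1)
    exact this
  · have e1 : ¬ (2 * m + 2 = 0) := by omega
    have e2 : ¬ (2 * m + 2 = 2 * π.l + 1) := by omega
    have e3 : (2 * m + 2 - 1) / 2 = m := by omega
    simp only [lay, e1, e2, e3, if_false]

/-- the first vertex lies above the base `(x, y)` of its obstacle -/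
theorem v0_zero (h : π.St k x y) : V0 (InL π.D) k ((x : ℤ), (y : ℤ))
    (lay π (.T k x y 0)).re (lay π (.T k x y 0)).im := by
  refine ⟨h.2.1, ?_, ?_⟩
  · simp only [lay, Par.pp]
    simp
  · simp only [lay, if_true]
    push_cast
    ring

theorem ve_last (h : π.St k x y) : Ve (InL π.D) k (π.pp k x y π.l)
    (lay π (.T k x y (2 * π.l + 1))).re (lay π (.T k x y (2 * π.l + 1))).im := by
  refine ⟨pp_inL h π.l, re_odd, ?_⟩
  rcases im_odd h le_rfl with ⟨g1, g2⟩ | ⟨g1, g2⟩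
  · exact g2
  · omega

/-- points of a vertical link -/
theorem tv_link (h : π.St k x y) (hm : m ≤ π.l) {z : ℂ}
    (hz : z ∈ openSegment ℝ (lay π (.T k x y (2 * m))) (lay π (.T k x y (2 * m + 1)))) :
    Tv π.R (InL π.D) k (π.pp k x y m) z.re z.im := by
  obtain ⟨c1, c2, c3, c4⟩ := cl_num h.1
  obtain ⟨t, t0, t1, hre, him⟩ := seg_pt hz
  have x1 := xi_ge k
  have x2 := xi_lt k
  have c3' : (1 : ℝ) ≤ π.fy k := by exact_mod_cast c3
  have c4' : 2 * (π.fy k : ℝ) + 1 ≤ π.R := by exact_mod_cast c4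
  have s1 : 0 < (2 - xi k) ^ 2 / 2 := by nlinarith
  have s2 : 0 < (xi k) ^ 2 / 2 := by nlinarith
  have s3 : (2 - xi k) ^ 2 / 2 ≤ 1 / 2 := by nlinarith
  have s4 : (xi k) ^ 2 / 2 < 2 := by nlinarith
  -- upper end
  have hu : (lay π (.T k x y (2 * m))).im ≤
        2 * (((π.pp k x y m).2 : ℝ) + π.R) + 4 + (xi k) ^ 2 / 2 ∧
      2 * ((π.pp k x y m).2 : ℝ) + 6 - (2 - xi k) ^ 2 / 2 < (lay π (.T k x y (2 * m))).im := by
    rcases im_even h hm with ⟨g1, g2⟩ | ⟨g1, g2⟩
    · rw [g2]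
      exact ⟨le_rfl, by linarith⟩
    · rw [g2]
      exact ⟨by linarith, by linarith⟩
  have hl : 2 * ((π.pp k x y m).2 : ℝ) + 6 - (2 - xi k) ^ 2 / 2 ≤
        (lay π (.T k x y (2 * m + 1))).im ∧
      (lay π (.T k x y (2 * m + 1))).im <
        2 * (((π.pp k x y m).2 : ℝ) + π.R) + 4 + (xi k) ^ 2 / 2 := by
    rcases im_odd h hm with ⟨g1, g2⟩ | ⟨g1, g2⟩
    · rw [g2]
      exact ⟨le_rfl, by linarith⟩
    · have e : ((π.qq k x y m).2 : ℝ) = (π.pp k x y m).2 + π.fy k := by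
        simp only [Par.qq]
        push_cast
        ring
      rw [g2, e]
      exact ⟨by linarith, by linarith⟩
  refine ⟨pp_inL h m, ?_, ?_, ?_⟩
  · rw [hre, re_even, re_odd]
    ring
  · rw [him]
    exact mix_gt t0 t1 hu.2 hl.1
  · rw [him]
    exact mix_lt t0 t1 hu.1 hl.2

/-- points of a horizontal link -/
theorem th_link (h : π.St k x y) (hm : m < π.l) {z : ℂ}
    (hz : z ∈ openSegment ℝ (lay π (.T k x y (2 * m + 1))) (lay π (.T k x y (2 * m + 2)))) :
    Th π.R (InL π.D) k (π.qq k x y m) z.re z.im := by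
  obtain ⟨c1, c2, c3, c4⟩ := cl_num h.1
  obtain ⟨t, t0, t1, hre, him⟩ := seg_pt hz
  have x1 := xi_ge k
  have x2 := xi_lt k
  have c1' : (1 : ℝ) ≤ π.fx k := by exact_mod_cast c1
  have c2' : 2 * (π.fx k : ℝ) + 1 ≤ π.R := by exact_mod_cast c2
  have a1 := vm_odd h hm
  have a2 := vm_even h hm
  obtain ⟨-, -, -, -, -, -, a3, a4⟩ := a1
  obtain ⟨-, -, -, -, -, -, a5, a6⟩ := a2
  have e1 : ((π.pp k x y m).1 : ℝ) = (π.qq k x y m).1 + π.fx k := by
    simp only [Par.qq]
    push_cast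
    ring
  have e2 : ((π.pp k x y (m + 1)).1 : ℝ) = (π.qq k x y m).1 + π.R - π.fx k := by
    have := pp_succ_fst π k x y m
    rw [this]
    push_cast
    ring
  rw [a3, a5, e1, e2] at hre
  rw [a4, a6] at him
  refine ⟨qq_inL h m, ?_, ?_, ?_⟩
  · rw [him]
    ring
  · rw [hre]
    exact mix_gt t0 t1 (by linarith) (by linarith)
  · rw [hre, Int.cast_natCast]
    exact mix_lt t0 t1 (by linarith) (by linarith)

/-- points of the first edge -/
theorem ts_link (h : π.St k x y) {z : ℂ}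
    (hz : z ∈ openSegment ℝ (lay π (.F (x + 1) (y + 1))) (lay π (.T k x y 0))) :
    Ts (InL π.D) k ((x : ℤ), (y : ℤ)) z.re z.im := by
  obtain ⟨t, t0, t1, hre, him⟩ := seg_pt hz
  have x1 := xi_ge k
  have x2 := xi_lt k
  obtain ⟨-, a3, a4⟩ := v0_zero h
  have f1 : (lay π (.F (x + 1) (y + 1))).re = 2 * (x : ℝ) + 6 := by
    simp only [lay]
    push_cast
    ring
  have f2 : (lay π (.F (x + 1) (y + 1))).im = 2 * (y : ℝ) + 6 := by
    simp only [lay]
    push_cast
    ring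
  push_cast at a3 a4
  rw [a3, f1] at hre
  rw [a4, f2] at him
  refine ⟨h.2.1, ?_, ?_, ?_⟩
  · push_cast
    rw [hre]
    exact mix_gt t0 t1 (by linarith) (by linarith)
  · push_cast
    rw [hre]
    exact mix_lt t0 t1 (by linarith) (by linarith)
  · push_cast
    rw [hre, him]
    ring

/-- points of the last edge -/
theorem te_link (h : π.St k x y) {z : ℂ}
    (hz : z ∈ openSegment ℝ (lay π (.T k x y (2 * π.l + 1)))
      (lay π (.F (π.pp k x y π.l).1.toNat (π.pp k x y π.l).2.toNat))) :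
    Te (InL π.D) k (π.pp k x y π.l) z.re z.im := by
  obtain ⟨t, t0, t1, hre, him⟩ := seg_pt hz
  have x1 := xi_ge k
  have x2 := xi_lt k
  obtain ⟨r1, r2, -⟩ := room_pp h le_rfl
  obtain ⟨a1, a3, a4⟩ := ve_last h
  have f1 : (lay π (.F (π.pp k x y π.l).1.toNat (π.pp k x y π.l).2.toNat)).re =
      2 * ((π.pp k x y π.l).1 : ℝ) + 4 := by
    have : (((π.pp k x y π.l).1.toNat : ℕ) : ℤ) = (π.pp k x y π.l).1 :=
      Int.toNat_of_nonneg (by omega)
    have g : (((π.pp k x y π.l).1.toNat : ℕ) : ℝ) = ((π.pp k x y π.l).1 : ℝ) := by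
      exact_mod_cast this
    simp only [lay, g]
  have f2 : (lay π (.F (π.pp k x y π.l).1.toNat (π.pp k x y π.l).2.toNat)).im =
      2 * ((π.pp k x y π.l).2 : ℝ) + 4 := by
    have : (((π.pp k x y π.l).2.toNat : ℕ) : ℤ) = (π.pp k x y π.l).2 :=
      Int.toNat_of_nonneg (by omega)
    have g : (((π.pp k x y π.l).2.toNat : ℕ) : ℝ) = ((π.pp k x y π.l).2 : ℝ) := by
      exact_mod_cast this
    simp only [lay, g]
  rw [a3, f1] at hre
  rw [a4, f2] at him
  refine ⟨a1, ?_, ?_, ?_⟩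
  · rw [hre]
    exact mix_gt t0 t1 (by linarith) (by linarith)
  · rw [hre]
    exact mix_lt t0 t1 (by linarith) (by linarith)
  · rw [hre, him]
    ring

/-- points of the diagonal of an obstacle -/
theorem dg_link (h : InL π.D ((x : ℤ), (y : ℤ))) {z : ℂ}
    (hz : z ∈ openSegment ℝ (lay π (.F x y)) (lay π (.F (x + 1) (y + 1)))) :
    Dg (InL π.D) ((x : ℤ), (y : ℤ)) z.re z.im := by
  obtain ⟨t, t0, t1, hre, him⟩ := seg_pt hz
  simp only [lay] at hre him
  push_cast at hre him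
  refine ⟨h, ?_, ?_, ?_⟩
  · push_cast
    rw [hre]
    linarith
  · push_cast
    rw [hre]
    linarith
  · push_cast
    rw [hre, him]
    ring

end Pool.Agent.Helper59.DG3
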